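import Pool.Agent.Lib.MP_dd827d_co.ThreeMain

/-!
For large orders and any number of parts, realizability is decided by a linear program up to an
arbitrarily small relative slack.
-/

namespace Pool.Agent.Results.MP_dd827d_co.AsymptoticCriterion

open Finset Pool.Agent.MP_dd827d_co

theorem result :
    (∀ (k : ℕ) (n : Fin k → ℕ), Realizable n → ∃ y : Fin k → Fin k → Fin k → ℝ,
      IsOutline (fun i => (n i : ℝ)) y ∧ ∀ a b c, 0 ≤ y a b c) ∧
    (∀ ε : ℝ, 0 < ε → ∃ n₀ : ℕ, ∀ (k : ℕ) (n : Fin k → ℕ), 5 ≤ k → (∀ i, 0 < n i) →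
      n₀ ≤ ∑ i, n i →
      (∃ y : Fin k → Fin k → Fin k → ℝ, IsOutline (fun i => (n i : ℝ)) y ∧
        ∀ a b c, a ≠ b → b ≠ c → a ≠ c →
          ε * ((n a : ℝ) * n b * n c) / ((∑ i, n i : ℕ) : ℝ) ≤ y a b c) → Realizable n) := by
  refine ⟨fun k n h => ?_, fun ε hε => ?_⟩
  · obtain ⟨x, hx⟩ := h.exists_outline
    refine ⟨fun a b c => (x a b c : ℝ), ⟨fun a c => by simp [hx.off12], fun a b => by
      simp [hx.off23], fun a b => by simp [hx.off13], fun a b hab => ?_, fun a c hac => ?_,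
      fun b c hbc => ?_⟩, fun a b c => Nat.cast_nonneg _⟩
    · exact_mod_cast hx.s3 a b hab
    · exact_mod_cast hx.s2 a c hac
    · exact_mod_cast hx.s1 b c hbc
  · obtain ⟨n₀, h⟩ := asymptotic_all ε hε
    exact ⟨n₀, fun k n hk hn h0 hy => h (Fin k) n hn (by simpa using hk) h0 hy⟩

end Pool.Agent.Results.MP_dd827d_co.AsymptoticCriterion
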