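import Pool.Agent.Lib.MP_dd827d_co.Cor

/-!
Partitions of `4 m + 2 ρ` whose parts can be divided into four arbitrary groups of sum `m` and a
realizable group of sum `2 ρ ≤ 2 m`.
-/

namespace Pool.Agent.Results.MP_dd827d_co.FourGroups

open Finset Pool.Agent.MP_dd827d_co

theorem result {k : ℕ} (n : Fin k → ℕ) (hn : ∀ i, 0 < n i) (f : Fin k → Option (Fin 4))
    (m ρ : ℕ) (hρ : ρ ≤ m)
    (hf : ∀ a : Fin 4, ∑ i ∈ univ.filter (fun i => f i = some a), n i = m)
    (hf' : ∑ i ∈ univ.filter (fun i => f i = none), n i = 2 * ρ)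
    (hr : (∀ i, f i ≠ none) ∨ Realizable (fun i : {i // f i = none} => n i.1)) :
    Realizable n := by
  rcases hr with hr | hr
  · exact four_groups n hn f m ρ hρ hf hf' (realizable_empty n hr)
  · exact four_groups n hn f m ρ hρ hf hf' hr

end Pool.Agent.Results.MP_dd827d_co.FourGroups
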