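import Pool.Agent.Lib.MP_dd827d_co.Sharp
import Pool.Agent.Lib.MP_dd827d_co.Dual

/-!
Large partitions with largest part at most `(5/14 - ε) n`, with the sharp constants.
-/

namespace Pool.Agent.Results.MP_dd827d_co.LargestPart

open Finset Pool.Agent.MP_dd827d_co

theorem result :
    (∀ ε : ℝ, 0 < ε → ∃ n₀ : ℕ, ∀ (I : Type) [Fintype I] (n : I → ℕ) (p : I),
      (∀ i, 0 < n i) → n₀ ≤ ∑ i, n i →
      (∀ i, n i ≤ n p) → (n p : ℝ) ≤ (5 / 14 - ε) * ((∑ i, n i : ℕ) : ℝ) →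
      (∀ i, i ≠ p → 3 * n i + n p ≤ ∑ j, n j) → Realizable n) ∧
    (∀ h m : ℕ, h ≠ m + 1 → ¬ Realizable (![h, m + 1, m + 1, m] : Fin 4 → ℕ)) ∧
    (∀ h m : ℕ, 5 * m + 7 ≤ 3 * h →
      ¬ Realizable (![h, m + 1, m + 1, m, 1] : Fin 5 → ℕ)) := by
  refine ⟨fun ε hε => ?_, fun h m hhm hr => ?_, fun h m hhm hr => ?_⟩
  · obtain ⟨n₀, h⟩ := sharp ε hε
    refine ⟨n₀, fun I _ n p hn h0 hle hp h3 => h I n hn h0 ?_⟩
    by_cases hc : ∑ j, n j ≤ 4 * n p
    · right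
      have hc' : ((∑ j, n j : ℕ) : ℝ) ≤ 4 * (n p : ℝ) := by exact_mod_cast hc
      refine ⟨p, hc', hp, fun i hi => ?_⟩
      have h4 : (3 : ℝ) * n i + n p ≤ ((∑ j, n j : ℕ) : ℝ) := by exact_mod_cast h3 i hi
      show 3 * (n i : ℝ) ≤ ((∑ j, n j : ℕ) : ℝ) - n p
      linarith
    · left
      intro i
      have h4 : 4 * n i ≤ ∑ j, n j := by
        have := hle i
        omega
      show 4 * (n i : ℝ) ≤ ((∑ j, n j : ℕ) : ℝ)
      exact_mod_cast h4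
  · have h1 := realizable_four_eq' hr
    push_cast at h1
    have h3 : (m : ℤ) + 1 - m = 1 := by ring
    rw [h3, mul_one] at h1
    omega
  · have := realizable_five_le hr
    omega

end Pool.Agent.Results.MP_dd827d_co.LargestPart
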