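import Pool.Agent.Lib.MP_dd827d_co.ThreeMain

/-!
Exact classification of the partitions in which three parts dominate the others.
-/

namespace Pool.Agent.Results.MP_dd827d_co.ThreeDominantParts

open Finset Pool.Agent.MP_dd827d_co

theorem result (a b c : ℕ) {r : ℕ} (d : Fin r → ℕ) (hd : ∀ i, 0 < d i) (hab : b ≤ a)
    (hbc : c ≤ b) (hc : 0 < c) (t : ℕ) (ht : ∑ i, d i = t) (htc : 4 * t ≤ c) :
    Realizable (Sum.elim ![a, b, c] d) ↔
      (a - b) * (c - t) + (a - c) * (b - t) + ∑ i, d i ^ 2 ≤ t ^ 2 := by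
  subst ht
  rw [three_iff a b c d hd hab hbc hc htc]
  have h1 : ∑ i, d i ≤ c := by omega
  have h2 : ∑ i, d i ≤ b := by omega
  have e1 : (((a - b : ℕ)) : ℤ) = (a : ℤ) - b := Nat.cast_sub hab
  have e2 : (((c - ∑ i, d i : ℕ)) : ℤ) = (c : ℤ) - (∑ i, d i : ℕ) := Nat.cast_sub h1
  have e3 : (((a - c : ℕ)) : ℤ) = (a : ℤ) - c := Nat.cast_sub (hbc.trans hab)
  have e4 : (((b - ∑ i, d i : ℕ)) : ℤ) = (b : ℤ) - (∑ i, d i : ℕ) := Nat.cast_sub h2
  rw [← e1, ← e2, ← e3, ← e4]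
  have e5 : ∑ i, (d i : ℤ) * d i = ((∑ i, d i ^ 2 : ℕ) : ℤ) := by
    push_cast
    exact Finset.sum_congr rfl fun i _ => by ring
  rw [e5, pow_two (∑ i, d i)]
  constructor
  · intro h
    exact_mod_cast h
  · intro h
    exact_mod_cast h

end Pool.Agent.Results.MP_dd827d_co.ThreeDominantParts
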